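import Mathlib

set_option autoImplicit false

open scoped Pointwise

namespace Pool.Agent.Results.MP_ee01d4_al.NoRetraction

/-- `G` admits a retraction `F(G) → G` (on finite non-empty subsets). -/
def HasRetraction (G : Type) [Group G] [DecidableEq G] : Prop :=
  ∃ σ : Finset G → G, (∀ g : G, σ {g} = g) ∧
    ∀ X Y : Finset G, X.Nonempty → Y.Nonempty → σ (X * Y) = σ X * σ Y

theorem h1_vanish {G : Type} [Group G] [DecidableEq G] (hσ : HasRetraction G) (A : Subgroup G)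
    [A.Normal] [A.FiniteIndex]
    (hc : ∀ x ∈ A, ∀ y ∈ A, x * y = y * x) (hs : ∀ g, (∀ a ∈ A, g * a = a * g) → g ∈ A)
    (h : G → G) (hA : ∀ g, h g ∈ A) (h1 : ∀ a ∈ A, h a = 1)
    (hh : ∀ g g', h (g * g') = h g * (g * h g' * g⁻¹)) :
    ∃ s ∈ A, ∀ g, h g = s * (g * s⁻¹ * g⁻¹) := by
  obtain ⟨σ, hσ1, hσ2⟩ := hσ
  have hfac : ∀ g g' : G, (g : G ⧸ A) = g' → h g = h g' := by
    intro g g' hgg
    have hm : g⁻¹ * g' ∈ A := QuotientGroup.eq.mp hgg
    have e : g' = g * (g⁻¹ * g') := by group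
    rw [e, hh, h1 _ hm]; simp
  have hfin : (Set.range h).Finite := by
    haveI : Finite (G ⧸ A) := inferInstance
    apply (Set.finite_range (fun q : G ⧸ A => h q.out)).subset
    rintro _ ⟨g, rfl⟩
    exact ⟨(g : G ⧸ A), hfac _ _ (by simp)⟩
  obtain ⟨X, hX⟩ : ∃ X : Finset G, ∀ x, x ∈ X ↔ ∃ g, h g = x :=
    ⟨hfin.toFinset, fun x => by simp⟩
  have hXne : X.Nonempty := ⟨h 1, (hX _).mpr ⟨1, rfl⟩⟩
  have key : ∀ g, ({g} : Finset G) * X * {g⁻¹} = {(h g)⁻¹} * X := by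
    intro g
    ext x
    simp only [Finset.mem_mul, Finset.mem_singleton]
    constructor
    · rintro ⟨y, ⟨g0, rfl, z, hz, rfl⟩, w, rfl, rfl⟩
      obtain ⟨g', rfl⟩ := (hX _).mp hz
      refine ⟨(h g0)⁻¹, rfl, h (g0 * g'), (hX _).mpr ⟨_, rfl⟩, ?_⟩
      rw [hh]; group
    · rintro ⟨y, rfl, z, hz, rfl⟩
      obtain ⟨k, rfl⟩ := (hX _).mp hz
      refine ⟨g * h (g⁻¹ * k), ⟨g, rfl, _, (hX _).mpr ⟨_, rfl⟩, rfl⟩, g⁻¹, rfl, ?_⟩
      have e := hh g (g⁻¹ * k)
      rw [show g * (g⁻¹ * k) = k by group] at e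
      rw [e]; group
  have hs1 : ∀ g, g * σ X * g⁻¹ = (h g)⁻¹ * σ X := by
    intro g
    have e := congrArg σ (key g)
    rw [hσ2 _ _ ((Finset.singleton_nonempty g).mul hXne) (Finset.singleton_nonempty _),
      hσ2 _ _ (Finset.singleton_nonempty _) hXne, hσ2 _ _ (Finset.singleton_nonempty _) hXne,
      hσ1, hσ1, hσ1] at e
    exact e
  have hs2 : ∀ a ∈ A, σ X * a = a * σ X := by
    intro a ha
    have e := hs1 a
    rw [h1 a ha] at e
    simp only [inv_one, one_mul] at e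
    calc σ X * a = (a * σ X * a⁻¹) * a := by rw [e]
      _ = a * σ X := by group
  refine ⟨σ X, hs _ hs2, fun g => ?_⟩
  have e := hs1 g
  calc h g = σ X * ((h g)⁻¹ * σ X)⁻¹ := by group
    _ = σ X * (g * σ X * g⁻¹)⁻¹ := by rw [e]
    _ = σ X * (g * (σ X)⁻¹ * g⁻¹) := by group

theorem exists_central_mod {G' : Type} [Group G'] [Finite G'] {p : ℕ} [Fact p.Prime]
    (hG : IsPGroup p G') (A' : Subgroup G') [A'.Normal] (hA : A' ≠ ⊥) :
    ∃ v ∈ A', v ≠ 1 ∧ ∀ g : G', g * v * g⁻¹ = v := by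
  have h1 : IsPGroup p (ConjAct G') := hG.of_equiv ConjAct.toConjAct
  have hA1 : Nontrivial A' := (Subgroup.nontrivial_iff_ne_bot A').mpr hA
  obtain ⟨n, hn0, hn⟩ := (hG.to_subgroup A').nontrivial_iff_card.mp hA1
  have hdvd : p ∣ Nat.card A' := hn.symm ▸ dvd_pow_self _ hn0.ne'
  have hfix : (1 : A') ∈ MulAction.fixedPoints (ConjAct G') A' := by
    intro g
    simp
  obtain ⟨b, hb, hb1⟩ := h1.exists_fixed_point_of_prime_dvd_card_of_fixed_point A' hdvd hfix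
  refine ⟨b, b.2, fun h => hb1 (Subtype.ext h.symm), fun g => ?_⟩
  have := congrArg Subtype.val (hb (ConjAct.toConjAct g))
  simpa [ConjAct.Subgroup.val_conj_smul, ConjAct.toConjAct_smul] using this

theorem no_retraction {G : Type} [Group G] [DecidableEq G] {p : ℕ} (hp : p.Prime) (A : Subgroup G)
    [A.Normal] {n : ℕ} (hn : 0 < n) (e : A ≃* Multiplicative (Fin n → ℤ))
    (hs : ∀ g, (∀ a ∈ A, g * a = a * g) → g ∈ A)
    {k : ℕ} (hk : A.index = p ^ k) (hz : ∀ z : G, (∀ g, z * g = g * z) → z = 1) :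
    ¬ HasRetraction G := by
  intro hσ
  haveI := Fact.mk hp
  have hc : ∀ x ∈ A, ∀ y ∈ A, x * y = y * x := by
    intro x hx y hy
    have : (⟨x, hx⟩ : A) * ⟨y, hy⟩ = ⟨y, hy⟩ * ⟨x, hx⟩ := by
      apply e.injective
      rw [map_mul, map_mul, mul_comm]
    exact congrArg Subtype.val this
  haveI : A.FiniteIndex := ⟨by rw [hk]; exact pow_ne_zero _ hp.ne_zero⟩
  -- p-th power map is injective on A
  have hinj : ∀ x ∈ A, ∀ y ∈ A, x ^ p = y ^ p → x = y := by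
    intro x hx y hy hxy
    have h1 : (⟨x, hx⟩ : A) ^ p = ⟨y, hy⟩ ^ p := Subtype.ext hxy
    have h2 := congrArg (fun z => Multiplicative.toAdd (e z)) h1
    simp only [map_pow, toAdd_pow] at h2
    have h3 : Multiplicative.toAdd (e ⟨x, hx⟩) = Multiplicative.toAdd (e ⟨y, hy⟩) := by
      funext i
      have := congrFun h2 i
      simp only [Pi.smul_apply, nsmul_eq_mul] at this
      exact mul_left_cancel₀ (by exact_mod_cast hp.ne_zero) this
    have h4 := e.injective (Multiplicative.toAdd.injective h3)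
    exact congrArg Subtype.val h4
  -- reduction mod p
  let r : Multiplicative (Fin n → ℤ) →* Multiplicative (Fin n → ZMod p) :=
    AddMonoidHom.toMultiplicative
      ((Int.castAddHom (ZMod p)).compLeft (Fin n))
  let f : A →* Multiplicative (Fin n → ZMod p) := r.comp e.toMonoidHom
  have hf : ∀ a : A, f a = 1 ↔ ∃ b : A, b ^ p = a := by
    intro a
    have hfa : f a = Multiplicative.ofAdd (fun i => ((Multiplicative.toAdd (e a) i : ℤ) : ZMod p)) :=
      rfl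
    constructor
    · intro h
      rw [hfa] at h
      have h' : (fun i => ((Multiplicative.toAdd (e a) i : ℤ) : ZMod p)) = 0 := h
      have hd : ∀ i, (p : ℤ) ∣ Multiplicative.toAdd (e a) i := fun i =>
        (ZMod.intCast_zmod_eq_zero_iff_dvd _ _).mp (congrFun h' i)
      choose c hc' using hd
      refine ⟨e.symm (Multiplicative.ofAdd c), ?_⟩
      apply e.injective
      rw [map_pow, MulEquiv.apply_symm_apply]
      apply Multiplicative.toAdd.injective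
      rw [toAdd_pow, toAdd_ofAdd]
      funext i
      simp [hc' i]
    · rintro ⟨b, rfl⟩
      rw [hfa]
      have : (fun i => ((Multiplicative.toAdd (e (b ^ p)) i : ℤ) : ZMod p)) = 0 := by
        funext i
        simp [map_pow, toAdd_pow]
      rw [this]
      rfl
  let N : Subgroup G := f.ker.map A.subtype
  have hN : ∀ x, x ∈ N ↔ ∃ b ∈ A, b ^ p = x := by
    intro x
    constructor
    · rintro ⟨a, ha, rfl⟩
      obtain ⟨b, hb⟩ := (hf a).mp ha
      exact ⟨b, b.2, by rw [← hb]; simp⟩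
    · rintro ⟨b, hb, rfl⟩
      exact ⟨(⟨b, hb⟩ : A) ^ p, (hf _).mpr ⟨_, rfl⟩, by simp⟩
  haveI hNn : N.Normal := by
    constructor
    intro x hx g
    obtain ⟨b, hb, rfl⟩ := (hN x).mp hx
    refine (hN _).mpr ⟨g * b * g⁻¹, (inferInstance : A.Normal).conj_mem b hb g, ?_⟩
    rw [conj_pow]
  haveI : N.FiniteIndex := by
    constructor
    show (f.ker.map A.subtype).index ≠ 0
    rw [Subgroup.index_map_subtype]
    haveI : NeZero p := ⟨hp.ne_zero⟩
    haveI : Finite (Multiplicative (Fin n → ZMod p)) :=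
      inferInstanceAs (Finite (Fin n → ZMod p))
    exact mul_ne_zero (Subgroup.FiniteIndex.index_ne_zero) (Subgroup.FiniteIndex.index_ne_zero)
  haveI : Finite (G ⧸ N) := inferInstance
  have hG' : IsPGroup p (G ⧸ N) := by
    intro q
    induction q using QuotientGroup.induction_on with
    | H g =>
      refine ⟨k + 1, ?_⟩
      rw [← QuotientGroup.mk_pow, QuotientGroup.eq_one_iff, hN]
      refine ⟨g ^ p ^ k, ?_, by rw [← pow_mul, pow_succ]⟩
      rw [← hk]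
      exact Subgroup.pow_index_mem A g
  -- a vector fixed mod N
  let A' : Subgroup (G ⧸ N) := A.map (QuotientGroup.mk' N)
  haveI : A'.Normal := Subgroup.Normal.map inferInstance _ (QuotientGroup.mk'_surjective N)
  have hA' : A' ≠ ⊥ := by
    intro hb
    let a0 : A := e.symm (Multiplicative.ofAdd (fun _ => (1 : ℤ)))
    have h1 : (QuotientGroup.mk' N) (a0 : G) ∈ A' := ⟨a0, a0.2, rfl⟩
    rw [hb, Subgroup.mem_bot] at h1
    have h2 : (a0 : G) ∈ N := (QuotientGroup.eq_one_iff _).mp h1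
    obtain ⟨b, hb, hba⟩ := (hN _).mp h2
    have h3 : (⟨b, hb⟩ : A) ^ p = a0 := Subtype.ext hba
    have h4 := congrArg (fun z => Multiplicative.toAdd (e z) ⟨0, hn⟩) h3
    simp only [map_pow, toAdd_pow, a0, MulEquiv.apply_symm_apply, toAdd_ofAdd, Pi.smul_apply,
      nsmul_eq_mul] at h4
    have h5 : (p : ℤ) ∣ 1 := ⟨_, h4.symm⟩
    have h6 : p ∣ 1 := by exact_mod_cast h5
    exact hp.one_lt.ne' (Nat.dvd_one.mp h6)
  obtain ⟨v', ⟨v, hvA, rfl⟩, hv1, hvc⟩ := exists_central_mod hG' A' hA'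
  have hvN : v ∉ N := fun h => hv1 ((QuotientGroup.eq_one_iff _).mpr h)
  have hvg : ∀ g : G, ∃ b ∈ A, b ^ p = g * v * g⁻¹ * v⁻¹ := by
    intro g
    rw [← hN, ← QuotientGroup.eq_one_iff]
    have := hvc (g : G ⧸ N)
    have h2 : ((g * v * g⁻¹ * v⁻¹ : G) : G ⧸ N) = (g : G ⧸ N) * (v : G ⧸ N) * (g : G ⧸ N)⁻¹ * (v : G ⧸ N)⁻¹ := rfl
    rw [h2]
    rw [show (g : G ⧸ N) * (v : G ⧸ N) * (g : G ⧸ N)⁻¹ = (v : G ⧸ N) from this]
    simp
  choose h hhA hhp using hvg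
  have hcomm : ∀ x ∈ A, ∀ y ∈ A, (x * y) ^ p = x ^ p * y ^ p := fun x hx y hy =>
    Commute.mul_pow (hc x hx y hy) p
  obtain ⟨s, hsA, hsg⟩ := h1_vanish hσ A hc hs h hhA
    (by
      intro a ha
      apply hinj _ (hhA a) _ A.one_mem
      rw [hhp, one_pow, hc a ha v hvA]
      group)
    (by
      intro g g'
      have hconj : g * h g' * g⁻¹ ∈ A := (inferInstance : A.Normal).conj_mem _ (hhA g') g
      apply hinj _ (hhA _) _ (A.mul_mem (hhA g) hconj)
      rw [hcomm _ (hhA g) _ hconj, conj_pow, hhp, hhp, hhp]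
      have c1 : g * v * g⁻¹ * v⁻¹ ∈ A := A.mul_mem ((inferInstance : A.Normal).conj_mem _ hvA g) (A.inv_mem hvA)
      have c2 : g * (g' * v * g'⁻¹ * v⁻¹) * g⁻¹ ∈ A :=
        (inferInstance : A.Normal).conj_mem _ (A.mul_mem ((inferInstance : A.Normal).conj_mem _ hvA g') (A.inv_mem hvA)) g
      rw [hc _ c1 _ c2]
      group)
  -- the element v * s ^ p is central
  have hspA : s ^ p ∈ A := A.pow_mem hsA p
  have hcent : ∀ g, (v * s ^ p) * g = g * (v * s ^ p) := by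
    intro g
    have e1 := hhp g
    have hc1 : g * s⁻¹ * g⁻¹ ∈ A := (inferInstance : A.Normal).conj_mem _ (A.inv_mem hsA) g
    rw [hsg g, hcomm _ hsA _ hc1, conj_pow] at e1
    -- s^p * (g * s⁻¹^p * g⁻¹) = g * v * g⁻¹ * v⁻¹
    have e2 : g * (v * s ^ p) * g⁻¹ = s ^ p * v := by
      have e3 : g * v * g⁻¹ = s ^ p * (g * (s⁻¹) ^ p * g⁻¹) * v := by rw [e1]; group
      have c3 : g * (s⁻¹) ^ p * g⁻¹ ∈ A := (inferInstance : A.Normal).conj_mem _ (A.pow_mem (A.inv_mem hsA) p) g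
      have c4 : g * s ^ p * g⁻¹ ∈ A := (inferInstance : A.Normal).conj_mem _ hspA g
      calc g * (v * s ^ p) * g⁻¹ = (g * v * g⁻¹) * (g * s ^ p * g⁻¹) := by group
        _ = s ^ p * (g * (s⁻¹) ^ p * g⁻¹) * (v * (g * s ^ p * g⁻¹)) := by rw [e3]; group
        _ = s ^ p * (g * (s⁻¹) ^ p * g⁻¹) * ((g * s ^ p * g⁻¹) * v) := by rw [hc _ hvA _ c4]
        _ = s ^ p * v := by rw [inv_pow]; group
    calc (v * s ^ p) * g = (s ^ p * v) * g := by rw [hc _ hvA _ hspA]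
      _ = (g * (v * s ^ p) * g⁻¹) * g := by rw [e2]
      _ = g * (v * s ^ p) := by group
  have hw := hz _ hcent
  apply hvN
  rw [hN]
  refine ⟨s⁻¹, A.inv_mem hsA, ?_⟩
  rw [inv_pow]
  exact (eq_inv_of_mul_eq_one_left hw).symm

/-- First generator of Promislow's (Hantzsche-Wendt) group, as an affine map of `ℤ³`. -/
def pa : Equiv.Perm (ℤ × ℤ × ℤ) where
  toFun v := (v.1 + 1, -v.2.1 + 1, -v.2.2)
  invFun v := (v.1 - 1, -v.2.1 + 1, -v.2.2)
  left_inv v := by ext <;> simp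
  right_inv v := by ext <;> simp

/-- Second generator of Promislow's (Hantzsche-Wendt) group, as an affine map of `ℤ³`. -/
def pb : Equiv.Perm (ℤ × ℤ × ℤ) where
  toFun v := (-v.1, v.2.1 + 1, -v.2.2 + 1)
  invFun v := (-v.1, v.2.1 - 1, -v.2.2 + 1)
  left_inv v := by ext <;> simp
  right_inv v := by ext <;> simp

/-- Promislow's group: the group of affine maps of `ℤ³` generated by `pa` and `pb`. -/
def PromislowGroup : Subgroup (Equiv.Perm (ℤ × ℤ × ℤ)) := Subgroup.closure {pa, pb}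

def Form (s : Equiv.Perm (ℤ × ℤ × ℤ)) : Prop :=
  ∃ e1 e3 p q r : ℤ, (e1 = 1 ∨ e1 = -1) ∧ ((e3 = 1 ∧ q % 2 = 0) ∨ (e3 = -1 ∧ q % 2 = 1)) ∧
    ∀ x y z, s (x, y, z) = (e1 * x + p, e1 * e3 * y + q, e3 * z + r)

theorem form_mul (g h : Equiv.Perm (ℤ × ℤ × ℤ)) (hg : Form g) (hh : Form h) : Form (g * h) := by
  obtain ⟨e1, e3, p, q, r, h1, h2, h3⟩ := hg
  obtain ⟨e1', e3', p', q', r', h1', h2', h3'⟩ := hh
  refine ⟨e1 * e1', e3 * e3', e1 * p' + p, e1 * e3 * q' + q, e3 * r' + r, ?_, ?_, ?_⟩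
  · rcases h1 with rfl | rfl <;> rcases h1' with rfl | rfl <;> simp
  · rcases h1 with rfl | rfl <;> rcases h2 with ⟨rfl, h2⟩ | ⟨rfl, h2⟩ <;>
      rcases h2' with ⟨rfl, h2'⟩ | ⟨rfl, h2'⟩ <;> simp <;> omega
  · intro x y z
    rw [Equiv.Perm.mul_apply, h3', h3]
    ext <;> simp <;> ring

theorem form_inv (g : Equiv.Perm (ℤ × ℤ × ℤ)) (hg : Form g) : Form g⁻¹ := by
  obtain ⟨e1, e3, p, q, r, h1, h2, h3⟩ := hg
  refine ⟨e1, e3, -(e1 * p), -(e1 * e3 * q), -(e3 * r), h1, ?_, ?_⟩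
  · rcases h1 with rfl | rfl <;> rcases h2 with ⟨rfl, h2⟩ | ⟨rfl, h2⟩ <;> simp <;> omega
  · intro x y z
    rw [Equiv.Perm.inv_eq_iff_eq, h3]
    rcases h1 with rfl | rfl <;> rcases h2 with ⟨rfl, h2⟩ | ⟨rfl, h2⟩ <;> ext <;> simp

theorem form_mem (s : Equiv.Perm (ℤ × ℤ × ℤ)) (hs : s ∈ PromislowGroup) : Form s := by
  induction hs using Subgroup.closure_induction with
  | mem x hx =>
    rcases hx with rfl | rfl
    · exact ⟨1, -1, 1, 1, 0, Or.inl rfl, Or.inr ⟨rfl, rfl⟩, fun x y z => by ext <;> simp [pa]⟩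
    · exact ⟨-1, -1, 0, 1, 1, Or.inr rfl, Or.inr ⟨rfl, rfl⟩, fun x y z => by ext <;> simp [pb]⟩
  | one => exact ⟨1, 1, 0, 0, 0, Or.inl rfl, Or.inl ⟨rfl, rfl⟩, fun x y z => by simp⟩
  | mul x y _ _ hx hy => exact form_mul x y hx hy
  | inv x _ hx => exact form_inv x hx

theorem promislow [DecidableEq PromislowGroup] : ¬ HasRetraction PromislowGroup := by
  rintro ⟨σ, hσ1, hσ2⟩
  let A : PromislowGroup := ⟨pa, Subgroup.subset_closure (by simp)⟩
  let B : PromislowGroup := ⟨pb, Subgroup.subset_closure (by simp)⟩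
  have hAB : A * (B * B) * A⁻¹ = (B * B)⁻¹ := by
    apply Subtype.ext
    show pa * (pb * pb) * pa⁻¹ = (pb * pb)⁻¹
    rw [mul_inv_eq_iff_eq_mul, eq_inv_mul_iff_mul_eq]
    ext v <;> simp [pa, pb]
  let X : Finset PromislowGroup := {1, B * B}
  have hXne : X.Nonempty := ⟨1, by simp [X]⟩
  have k1 : ({B * B} : Finset PromislowGroup) * X = X * {B * B} := by
    simp only [X]
    ext w
    simp only [Finset.mem_mul, Finset.mem_singleton, Finset.mem_insert]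
    constructor
    · rintro ⟨_, rfl, y, rfl | rfl, rfl⟩
      · exact ⟨1, Or.inl rfl, _, rfl, by group⟩
      · exact ⟨B * B, Or.inr rfl, _, rfl, by group⟩
    · rintro ⟨y, rfl | rfl, _, rfl, rfl⟩
      · exact ⟨_, rfl, 1, Or.inl rfl, by group⟩
      · exact ⟨_, rfl, B * B, Or.inr rfl, by group⟩
  have k2 : ({A} : Finset PromislowGroup) * X = {(B * B)⁻¹} * X * {A} := by
    have hAB' : A * (B * B) = (B * B)⁻¹ * A := by rw [← hAB]; group
    simp only [X]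
    ext w
    simp only [Finset.mem_mul, Finset.mem_singleton, Finset.mem_insert]
    constructor
    · rintro ⟨_, rfl, y, rfl | rfl, rfl⟩
      · exact ⟨(B * B)⁻¹ * (B * B), ⟨_, rfl, _, Or.inr rfl, rfl⟩, A, rfl, by group⟩
      · exact ⟨(B * B)⁻¹ * 1, ⟨_, rfl, _, Or.inl rfl, rfl⟩, A, rfl, by rw [hAB', mul_one]⟩
    · rintro ⟨_, ⟨_, rfl, y, rfl | rfl, rfl⟩, _, rfl, rfl⟩
      · exact ⟨A, rfl, B * B, Or.inr rfl, by rw [hAB', mul_one]⟩
      · exact ⟨A, rfl, 1, Or.inl rfl, by group⟩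
  have e1 := congrArg σ k1
  rw [hσ2 _ _ (Finset.singleton_nonempty _) hXne, hσ2 _ _ hXne (Finset.singleton_nonempty _),
    hσ1] at e1
  have e2 := congrArg σ k2
  rw [hσ2 _ _ (Finset.singleton_nonempty _) hXne,
    hσ2 _ _ ((Finset.singleton_nonempty _).mul hXne) (Finset.singleton_nonempty _),
    hσ2 _ _ (Finset.singleton_nonempty _) hXne, hσ1, hσ1] at e2
  obtain ⟨u, w, p, q, r, h1, h2, h3⟩ := form_mem _ (σ X).2
  have f1 : pb * pb * ((σ X : PromislowGroup) : Equiv.Perm (ℤ × ℤ × ℤ)) = (σ X : PromislowGroup) * (pb * pb) :=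
    congrArg Subtype.val e1
  have f2 : pa * ((σ X : PromislowGroup) : Equiv.Perm (ℤ × ℤ × ℤ)) =
      (pb * pb)⁻¹ * (σ X : PromislowGroup) * pa := congrArg Subtype.val e2
  have f2' : (pb * pb) * (pa * ((σ X : PromislowGroup) : Equiv.Perm (ℤ × ℤ × ℤ))) =
      (σ X : PromislowGroup) * pa := by rw [f2]; group
  have g1 := congrArg (fun t => t ((0, 0, 0) : ℤ × ℤ × ℤ)) f1
  have g2 := congrArg (fun t => t ((0, 0, 0) : ℤ × ℤ × ℤ)) f2'
  simp only [Equiv.Perm.mul_apply, pa, pb, Equiv.coe_fn_mk, h3, Prod.mk.injEq] at g1 g2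
  obtain ⟨a1, a2, a3⟩ := g1
  obtain ⟨b1, b2, b3⟩ := g2
  rcases h1 with rfl | rfl <;> rcases h2 with ⟨rfl, h2⟩ | ⟨rfl, h2⟩ <;> omega

theorem result :
    (∀ (G : Type) [Group G] [DecidableEq G], HasRetraction G →
      ∀ (A : Subgroup G) [A.Normal] [A.FiniteIndex],
        (∀ x ∈ A, ∀ y ∈ A, x * y = y * x) → (∀ g, (∀ a ∈ A, g * a = a * g) → g ∈ A) →
        ∀ h : G → G, (∀ g, h g ∈ A) → (∀ a ∈ A, h a = 1) →
          (∀ g g', h (g * g') = h g * (g * h g' * g⁻¹)) →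
          ∃ s ∈ A, ∀ g, h g = s * (g * s⁻¹ * g⁻¹)) ∧
    (∀ (G : Type) [Group G] [DecidableEq G] (p : ℕ), p.Prime →
      ∀ (A : Subgroup G) [A.Normal] (n : ℕ), 0 < n →
        Nonempty (A ≃* Multiplicative (Fin n → ℤ)) →
        (∀ g, (∀ a ∈ A, g * a = a * g) → g ∈ A) →
        (∃ k : ℕ, A.index = p ^ k) →
        (∀ z : G, (∀ g, z * g = g * z) → z = 1) →
        ¬ HasRetraction G) ∧
    (∀ [DecidableEq PromislowGroup], ¬ HasRetraction PromislowGroup) := by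
  refine ⟨?_, ?_, ?_⟩
  · intro G _ _ hσ A _ _ hc hs h hA h1 hh
    exact h1_vanish hσ A hc hs h hA h1 hh
  · intro G _ _ p hp A _ n hn ⟨e⟩ hs ⟨k, hk⟩ hz
    exact no_retraction hp A hn e hs hk hz
  · intro _
    exact promislow

end Pool.Agent.Results.MP_ee01d4_al.NoRetraction
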