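import Mathlib

open Pointwise

universe u

namespace Pool.Agent.Results.MP_ee01d4_al.PositiveGenerators

/-- `σ` (restricted to finite nonempty subsets) is a retraction of `G`. -/
def IsRetraction {G : Type u} [Group G] (σ : Set G → G) : Prop :=
  (∀ g : G, σ {g} = g) ∧
    ∀ X Y : Set G, X.Finite → X.Nonempty → Y.Finite → Y.Nonempty → σ (X * Y) = σ X * σ Y

variable {G : Type u} [Group G]

theorem sigma_pow {σ : Set G → G} (hσ : IsRetraction σ) {X : Set G} (hX : X.Finite)
    (hX' : X.Nonempty) (n : ℕ) : (X ^ n).Finite ∧ (X ^ n).Nonempty ∧ σ (X ^ n) = σ X ^ n := by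
  induction n with
  | zero =>
    rw [pow_zero, pow_zero]
    exact ⟨Set.finite_one, Set.one_nonempty, hσ.1 1⟩
  | succ n ih =>
    obtain ⟨h1, h2, h3⟩ := ih
    rw [pow_succ, pow_succ]
    exact ⟨h1.mul hX, h2.mul hX', by rw [hσ.2 _ _ h1 h2 hX hX', h3]⟩

theorem mem_pow_of_mem_closure {B : Set G} {x : G} (hx : x ∈ Subsemigroup.closure B) :
    ∃ n : ℕ, x ∈ B ^ (n + 1) := by
  induction hx using Subsemigroup.closure_induction with
  | mem x hx => exact ⟨0, by simpa using hx⟩
  | mul x y _ _ hx hy =>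
    obtain ⟨m, hm⟩ := hx
    obtain ⟨n, hn⟩ := hy
    refine ⟨m + n + 1, ?_⟩
    have : m + n + 1 + 1 = (m + 1) + (n + 1) := by ring
    rw [this, pow_add]
    exact Set.mul_mem_mul hm hn

theorem insert_pow {B : Set G} (m : ℕ) {w : G} (hw : w ∈ (insert 1 B) ^ m) :
    ∃ i ≤ m, w ∈ B ^ i := by
  induction m generalizing w with
  | zero => exact ⟨0, le_rfl, by simpa using hw⟩
  | succ m ih =>
    rw [pow_succ'] at hw
    obtain ⟨a, ha, b, hb, rfl⟩ := hw
    obtain ⟨i, hi, hbi⟩ := ih hb
    rcases ha with rfl | ha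
    · refine ⟨i, by omega, ?_⟩
      simpa using hbi
    · refine ⟨i + 1, by omega, ?_⟩
      rw [pow_succ']
      exact Set.mul_mem_mul ha hbi

theorem pow_sub_insert {B : Set G} {i m : ℕ} (h : i ≤ m) : B ^ i ⊆ (insert 1 B) ^ m :=
  (Set.pow_subset_pow_left (Set.subset_insert 1 B)).trans
    (Set.pow_subset_pow_right (Set.mem_insert 1 B) h)

theorem sigma_insert_one {σ : Set G → G} (hσ : IsRetraction σ) {B : Set G} (hB : B.Finite)
    (hB' : B.Nonempty) (h1 : (1 : G) ∈ Subsemigroup.closure B) : σ (insert 1 B) = σ B := by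
  obtain ⟨n, hn⟩ := mem_pow_of_mem_closure h1
  have key : B * (insert 1 B) ^ n = (insert 1 B) ^ (n + 1) := by
    apply Set.Subset.antisymm
    · rw [pow_succ']
      exact Set.mul_subset_mul_right (Set.subset_insert 1 B)
    · intro w hw
      obtain ⟨i, hi, hwi⟩ := insert_pow _ hw
      rcases i with _ | i
      · have hw1 : w = 1 := by simpa using hwi
        rw [hw1]
        rw [pow_succ'] at hn
        exact Set.mul_subset_mul_left (pow_sub_insert le_rfl) hn
      · rw [pow_succ'] at hwi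
        exact Set.mul_subset_mul_left (pow_sub_insert (by omega)) hwi
  obtain ⟨f1, f2, f3⟩ := sigma_pow hσ (hB.insert 1) (Set.insert_nonempty 1 B) n
  obtain ⟨_, _, f3'⟩ := sigma_pow hσ (hB.insert 1) (Set.insert_nonempty 1 B) (n + 1)
  have h2 := congrArg σ key
  rw [hσ.2 _ _ hB hB' f1 f2, f3, f3', pow_succ'] at h2
  exact (mul_right_cancel h2).symm

theorem sigma_insert {σ : Set G → G} (hσ : IsRetraction σ) {A : Set G} (hA : A.Finite)
    (hA' : A.Nonempty) (z : G) (h1 : (1 : G) ∈ Subsemigroup.closure (({z⁻¹} : Set G) * A)) :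
    σ (insert z A) = σ A := by
  have hf : (({z⁻¹} : Set G) * A).Finite := (Set.finite_singleton _).mul hA
  have hn : (({z⁻¹} : Set G) * A).Nonempty := (Set.singleton_nonempty _).mul hA'
  have h2 := sigma_insert_one hσ hf hn h1
  have h3 : ({z} : Set G) * insert 1 (({z⁻¹} : Set G) * A) = insert z A := by
    rw [Set.insert_eq, Set.mul_union, ← mul_assoc, Set.singleton_mul_singleton,
      Set.singleton_mul_singleton, mul_inv_cancel, mul_one, Set.insert_eq]
    congr 1
    exact one_mul A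
  have h4 : ({z} : Set G) * (({z⁻¹} : Set G) * A) = A := by
    rw [← mul_assoc, Set.singleton_mul_singleton, mul_inv_cancel]
    exact one_mul A
  rw [← h3, hσ.2 _ _ (Set.finite_singleton _) (Set.singleton_nonempty _) (hf.insert 1)
    (Set.insert_nonempty _ _), h2, ← hσ.2 _ _ (Set.finite_singleton _)
    (Set.singleton_nonempty _) hf hn, h4]

/-- **Main result.** If `G` has a retraction, then each nontrivial finitely generated subgroup
`H` of `G` has a finite set of group generators `B` with `1 ∉ ⋃_{n ≥ 1} B^n`. -/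
theorem result (σ : Set G → G) (hσ : IsRetraction σ) (H : Subgroup G) (hH : H.FG)
    (hne : H ≠ ⊥) :
    ∃ B : Set G, B.Finite ∧ Subgroup.closure B = H ∧ (1 : G) ∉ Subsemigroup.closure B := by
  by_contra hcon
  push Not at hcon
  obtain ⟨S, hS, hSf⟩ := (Subgroup.fg_iff H).1 hH
  have hSH : S ⊆ H := by rw [← hS]; exact Subgroup.subset_closure
  let A0 : Set G := insert 1 S
  have hA0f : A0.Finite := hSf.insert 1
  have hA0H : A0 ⊆ H := Set.insert_subset H.one_mem hSH
  -- good sets
  have good : ∀ A : Set G, A.Finite → A ⊆ H → (∃ g ∈ H, ({g} : Set G) * A0 ⊆ A) →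
      ∀ z ∈ H, σ (insert z A) = σ A := by
    rintro A hAf hAH ⟨g, hg, hgA⟩ z hz
    have hAne : A.Nonempty :=
      ⟨g * 1, hgA (Set.mul_mem_mul rfl (Set.mem_insert 1 S))⟩
    refine sigma_insert hσ hAf hAne z (hcon _ ((Set.finite_singleton _).mul hAf) ?_)
    apply le_antisymm
    · rw [Subgroup.closure_le]
      rintro _ ⟨_, rfl, a, ha, rfl⟩
      exact H.mul_mem (H.inv_mem hz) (hAH ha)
    · rw [← hS, Subgroup.closure_le]
      intro s hs
      have e1 : z⁻¹ * (g * 1) ∈ Subgroup.closure (({z⁻¹} : Set G) * A) :=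
        Subgroup.subset_closure (Set.mul_mem_mul rfl
          (hgA (Set.mul_mem_mul rfl (Set.mem_insert 1 S))))
      have e2 : z⁻¹ * (g * s) ∈ Subgroup.closure (({z⁻¹} : Set G) * A) :=
        Subgroup.subset_closure (Set.mul_mem_mul rfl
          (hgA (Set.mul_mem_mul rfl (Set.mem_insert_of_mem 1 hs))))
      have e3 := Subgroup.mul_mem _ (Subgroup.inv_mem _ e1) e2
      have e4 : (z⁻¹ * (g * 1))⁻¹ * (z⁻¹ * (g * s)) = s := by group
      rw [e4] at e3
      exact e3
  have goodU : ∀ C : Set G, C.Finite → C ⊆ H → ∀ A : Set G, A.Finite → A ⊆ H →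
      (∃ g ∈ H, ({g} : Set G) * A0 ⊆ A) → σ (C ∪ A) = σ A := by
    intro C hC
    induction C, hC using Set.Finite.induction_on with
    | empty => intro _ A _ _ _; rw [Set.empty_union]
    | @insert c s _ hs ih =>
      intro hcs A hAf hAH hg
      have hsH : s ⊆ H := (Set.subset_insert c s).trans hcs
      rw [Set.insert_union, good (s ∪ A) (hs.union hAf) (Set.union_subset hsH hAH) ?_ c
        (hcs (Set.mem_insert c s))]
      · exact ih hsH A hAf hAH hg
      · obtain ⟨g, hg1, hg2⟩ := hg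
        exact ⟨g, hg1, hg2.trans Set.subset_union_right⟩
  apply hne
  rw [Subgroup.eq_bot_iff_forall]
  intro h hh
  have hhA : ({h} : Set G) * A0 ⊆ H := by
    rintro _ ⟨_, rfl, a, ha, rfl⟩
    exact H.mul_mem hh (hA0H ha)
  have hhAf : (({h} : Set G) * A0).Finite := (Set.finite_singleton _).mul hA0f
  have h1 := goodU (({h} : Set G) * A0) hhAf hhA A0 hA0f hA0H
    ⟨1, H.one_mem, by
      rintro _ ⟨_, rfl, a, ha, rfl⟩
      simpa using ha⟩
  have h2 := goodU A0 hA0f hA0H (({h} : Set G) * A0) hhAf hhA ⟨h, hh, le_rfl⟩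
  rw [Set.union_comm] at h2
  rw [h1, hσ.2 _ _ (Set.finite_singleton _) (Set.singleton_nonempty _) hA0f
    (Set.insert_nonempty _ _), hσ.1] at h2
  exact (right_eq_mul.1 h2)

end Pool.Agent.Results.MP_ee01d4_al.PositiveGenerators
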